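import Pool.Agent.helper73.AD.GW1
import Pool.Agent.helper73.AD.GWL

/-!
Project ad, module WH3: derivative of the trace of a product.
-/

open scoped MatrixGroups LinearAlgebra.Projectivization BigOperators
open Matrix UpperHalfPlane

namespace AdSBend

theorem WH3_inv_mul (g : SL(2, ℝ)) : (g⁻¹).1 * g.1 = 1 := by
  have h : (g⁻¹ * g).1 = 1 := by rw [inv_mul_cancel]; rfl
  exact h

theorem WH3_mul_inv (g : SL(2, ℝ)) : g.1 * (g⁻¹).1 = 1 := by
  have h : (g * g⁻¹).1 = 1 := by rw [mul_inv_cancel]; rfl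
  exact h

theorem WH3_ind (n : ℕ) (Q : ℕ → ℝ → M2) (δ : ℕ → M2) (Φ : ℕ → SL(2, ℝ))
    (hQ : ∀ i < n, HasD (Q i) ((1 / 2 : ℝ) • (δ i * Q i 0)))
    (hΦ : ∀ i < n, (Φ (i + 1)).1 = (Φ i).1 * Q i 0 ∨ (Φ (i + 1)).1 = -((Φ i).1 * Q i 0)) :
    ∀ k ≤ n, HasD (fun s => ((List.ofFn (fun i : Fin k => Q i s)).prod))
        ((1 / 2 : ℝ) • ((∑ i ∈ Finset.range k,
          ((Φ 0)⁻¹).1 * cj (Φ i) (δ i) * (Φ 0).1) *
            (List.ofFn (fun i : Fin k => Q i 0)).prod)) ∧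
      ((List.ofFn (fun i : Fin k => Q i 0)).prod = ((Φ 0)⁻¹).1 * (Φ k).1 ∨
        (List.ofFn (fun i : Fin k => Q i 0)).prod = -(((Φ 0)⁻¹).1 * (Φ k).1)) := by
  intro k
  induction k with
  | zero =>
    intro _
    constructor
    · have h := HasD.const (1 : M2)
      simpa using h
    · left
      simp only [List.ofFn_zero, List.prod_nil]
      rw [WH3_inv_mul]
  | succ k ih =>
    intro hk
    obtain ⟨h1, h2⟩ := ih (by omega)
    have hprod : ∀ s, (List.ofFn (fun i : Fin (k + 1) => Q i s)).prod =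
        (List.ofFn (fun i : Fin k => Q i s)).prod * Q k s := by
      intro s
      rw [List.ofFn_succ_last, List.prod_append]
      simp
    have hQk := hQ k (by omega)
    have hm := h1.mul hQk
    set L := (List.ofFn (fun i : Fin k => Q i 0)).prod with hL
    have hkey : L * δ k = ((Φ 0)⁻¹).1 * cj (Φ k) (δ k) * (Φ 0).1 * L := by
      have e : (Φ 0).1 * (((Φ 0)⁻¹).1 * (Φ k).1) = (Φ k).1 := by
        rw [← Matrix.mul_assoc, WH3_mul_inv, Matrix.one_mul]
      have e2 : ((Φ 0)⁻¹).1 * cj (Φ k) (δ k) * (Φ 0).1 * (((Φ 0)⁻¹).1 * (Φ k).1) =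
          ((Φ 0)⁻¹).1 * (Φ k).1 * δ k := by
        rw [Matrix.mul_assoc _ (Φ 0).1, e]
        unfold cj
        rw [Matrix.mul_assoc, Matrix.mul_assoc _ ((Φ k)⁻¹).1, WH3_inv_mul, Matrix.mul_one,
          Matrix.mul_assoc]
      rcases h2 with h2 | h2
      · rw [h2, e2]
      · rw [h2, Matrix.mul_neg, e2, Matrix.neg_mul]
    constructor
    · have hfun : (fun s => (List.ofFn (fun i : Fin (k + 1) => Q i s)).prod) =
          fun s => (List.ofFn (fun i : Fin k => Q i s)).prod * Q k s := by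
        funext s; exact hprod s
      rw [hfun, hprod 0, ← hL]
      have hE : ((1 / 2 : ℝ) • ((∑ i ∈ Finset.range k,
          ((Φ 0)⁻¹).1 * cj (Φ i) (δ i) * (Φ 0).1) * L)) * Q k 0 +
          L * ((1 / 2 : ℝ) • (δ k * Q k 0)) =
          (1 / 2 : ℝ) • ((∑ i ∈ Finset.range (k + 1),
            ((Φ 0)⁻¹).1 * cj (Φ i) (δ i) * (Φ 0).1) * (L * Q k 0)) := by
        rw [Finset.sum_range_succ, Matrix.smul_mul, Matrix.mul_smul, ← smul_add, Matrix.add_mul,
          ← Matrix.mul_assoc L, hkey]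
        congr 1
        rw [Matrix.mul_assoc _ L, Matrix.mul_assoc _ L]
      rw [← hE]
      exact hm
    · rw [hprod 0, ← hL]
      rcases h2 with h2 | h2 <;> rcases hΦ k (by omega) with h3 | h3
      · left; rw [h2, h3, Matrix.mul_assoc]
      · right; rw [h2, h3, Matrix.mul_neg, neg_neg, Matrix.mul_assoc]
      · right; rw [h2, h3, Matrix.neg_mul, Matrix.mul_assoc]
      · left; rw [h2, h3, Matrix.mul_neg, Matrix.neg_mul, Matrix.mul_assoc]

theorem WH3 : WH3_stmt := by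
  intro n Q δ Φ g hQ hΦ hg ht
  classical
  set Q' : ℕ → ℝ → M2 := fun i s => if h : i < n + 1 then Q ⟨i, h⟩ s else 1 with hQ'
  set δ' : ℕ → M2 := fun i => if h : i < n + 1 then δ ⟨i, h⟩ else 0 with hδ'
  have hQe : ∀ i : Fin (n + 1), Q' i = Q i := by
    intro i; funext s; rw [hQ']; exact dif_pos i.2
  have hδe : ∀ i : Fin (n + 1), δ' i = δ i := by
    intro i; rw [hδ']; exact dif_pos i.2
  have hfn : ∀ s, (List.ofFn (fun i : Fin (n + 1) => Q' i s)) =
      List.ofFn (fun i : Fin (n + 1) => Q i s) := by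
    intro s; congr 1; funext i; rw [hQe]
  obtain ⟨h1, h2⟩ := WH3_ind (n + 1) Q' δ' Φ
    (by
      intro i hi
      have := hQ ⟨i, hi⟩
      rw [← hQe ⟨i, hi⟩, ← hδe ⟨i, hi⟩] at this
      exact this)
    (by
      intro i hi
      have := hΦ ⟨i, hi⟩
      rw [← hQe ⟨i, hi⟩] at this
      exact this) (n + 1) le_rfl
  simp only [hfn] at h1 h2
  have h3 := h1.trace
  set L := (List.ofFn (fun i : Fin (n + 1) => Q i 0)).prod with hL
  -- L is conjugate to pos g
  have hLg : L = ((Φ 0)⁻¹).1 * (pos g).1 * (Φ 0).1 := by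
    have hLg' : L = ((Φ 0)⁻¹).1 * g.1 * (Φ 0).1 ∨ L = -(((Φ 0)⁻¹).1 * g.1 * (Φ 0).1) := by
      have hgg : (Φ (n + 1)).1 = g.1 * (Φ 0).1 ∨ (Φ (n + 1)).1 = -(g.1 * (Φ 0).1) := by
        rcases hg with h | h
        · left; rw [h]; rfl
        · right; rw [h]; rfl
      rcases h2 with h2 | h2 <;> rcases hgg with h | h
      · left; rw [h2, h, Matrix.mul_assoc]
      · right; rw [h2, h, Matrix.mul_neg, Matrix.mul_assoc]
      · right; rw [h2, h, Matrix.mul_assoc]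
      · left; rw [h2, h, Matrix.mul_neg, neg_neg, Matrix.mul_assoc]
    have htr : (((Φ 0)⁻¹).1 * g.1 * (Φ 0).1).trace = trc g := by
      rw [Matrix.trace_mul_comm, ← Matrix.mul_assoc, WH3_mul_inv, Matrix.one_mul,
        Matrix.trace_fin_two]
      rfl
    unfold pos
    rcases hLg' with h | h
    · rw [h, htr] at ht
      rw [if_pos ht.le, h]
    · rw [h, Matrix.trace_neg, htr] at ht
      rw [if_neg (by linarith), h]
      have : (-g).1 = -g.1 := rfl
      rw [this]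
      noncomm_ring
  refine h3.congr_deriv ?_
  rw [Matrix.trace_smul, smul_eq_mul]
  congr 1
  rw [Finset.sum_mul, Matrix.trace_sum, ← Fin.sum_univ_eq_sum_range
    (fun i => (((Φ 0)⁻¹).1 * cj (Φ i) (δ' i) * (Φ 0).1 * L).trace)]
  refine Finset.sum_congr rfl fun i _ => ?_
  rw [hδe, hLg]
  have e : ((Φ 0)⁻¹).1 * cj (Φ i) (δ i) * (Φ 0).1 * (((Φ 0)⁻¹).1 * (pos g).1 * (Φ 0).1) =
      ((Φ 0)⁻¹).1 * (cj (Φ i) (δ i) * (pos g).1 * (Φ 0).1) := by
    calc _ = ((Φ 0)⁻¹).1 * cj (Φ i) (δ i) * ((Φ 0).1 * ((Φ 0)⁻¹).1) * (pos g).1 * (Φ 0).1 := by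
          noncomm_ring
      _ = _ := by rw [WH3_mul_inv]; noncomm_ring
  rw [e, Matrix.trace_mul_comm, Matrix.mul_assoc, WH3_mul_inv, Matrix.mul_one]

end AdSBend
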