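import Pool.Agent.helper94.AW.WR2b

/-!
Project ad, module WR2: the reference triples are a system of representatives.
-/

open scoped MatrixGroups LinearAlgebra.Projectivization BigOperators
open Matrix UpperHalfPlane

namespace AdSBend

open LeafSystem

theorem WR2_gat_mul (g h : SL(2, ℝ)) (τ : Tri) : gat (g * h) τ = gat g (gat h τ) := by
  unfold gat
  rw [WR2b_ga_mul, WR2b_ga_mul, WR2b_ga_mul]

theorem WR2_gat_one (τ : Tri) : gat 1 τ = τ := by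
  unfold gat
  rw [WR2b_ga_one, WR2b_ga_one, WR2b_ga_one]

theorem WR2_gat_peq {g h : SL(2, ℝ)} (H : PEq g h) (τ : Tri) : gat g τ = gat h τ := by
  unfold gat
  rw [WR2b_ga_peq H, WR2b_ga_peq H, WR2b_ga_peq H]

theorem WR2_zpow_mem {Γ : Subgroup SL(2, ℝ)} {g : SL(2, ℝ)} (h : g ∈ Γ) (n : ℤ) : g ^ n ∈ Γ :=
  Γ.zpow_mem h n

theorem WR2_ga_zpow (g : SL(2, ℝ)) (p : Bd × Bd) (h : ga g p = p) (n : ℤ) :
    ga (g ^ n) p = p := by
  have hi : ga g⁻¹ p = p := by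
    conv_lhs => rw [← h]
    rw [WR2b_ga_inv_ga]
  have hnat : ∀ (g : SL(2, ℝ)) (n : ℕ), ga g p = p → ga (g ^ n) p = p := by
    intro g n hg
    induction n with
    | zero => rw [pow_zero, WR2b_ga_one]
    | succ n ih => rw [pow_succ, WR2b_ga_mul, hg, ih]
  cases n with
  | ofNat n => rw [Int.ofNat_eq_natCast, zpow_natCast]; exact hnat g n h
  | negSucc n => rw [zpow_negSucc, ← inv_pow]; exact hnat _ _ hi

theorem WR2_hex {Γ : Subgroup SL(2, ℝ)} {J K : Type} [Fintype J] [DecidableEq J]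
    (hx1 : HX1_stmt) (c : WCtx Γ J K) (B : c.Base) :
    ∀ x, c.X.S.IsHex (B.t0 x) := by
  obtain ⟨x1, x2, x3, x4, x5, x6, x7⟩ := hx1 Γ c.hΓ c.X.S
  rintro ⟨j, a⟩
  fin_cases a
  · exact B.hexU j
  · exact x2 _ _ _ (B.hexU j)
  · exact B.hexV j
  · exact x2 _ _ _ (B.hexV j)

/-- the class of the first leaf -/
theorem WR2_first {Γ : Subgroup SL(2, ℝ)} {J K : Type} [Fintype J] [DecidableEq J]
    (c : WCtx Γ J K) (B : c.Base) (j : J) (a : Fin 4) :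
    ((a = 0 ∨ a = 1) ∧ (B.t0 (j, a)).1 = c.X.D.P j) ∨
      ((a = 2 ∨ a = 3) ∧ (B.t0 (j, a)).1 = sw (c.X.D.P j)) := by
  fin_cases a
  · exact Or.inl ⟨Or.inl rfl, rfl⟩
  · exact Or.inl ⟨Or.inr rfl, rfl⟩
  · exact Or.inr ⟨Or.inl rfl, rfl⟩
  · exact Or.inr ⟨Or.inr rfl, rfl⟩

theorem WR2 (h4 : BD4_stmt) (h5 : BD5_stmt) (g1 : GM1_stmt) (g6 : GM6_stmt)
    (g7 : GM7_stmt) (hx1 : HX1_stmt) (hx6 : HX6_stmt) (hx7 : HX7_stmt) :
    WR2_stmt := by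
  intro Γ J K _ _ c B
  have hhex := WR2_hex hx1 c B
  refine ⟨hhex, ?_⟩
  obtain ⟨x1, x2, x3, x4, x5, x6, x7⟩ := hx1 Γ c.hΓ c.X.S
  obtain ⟨y1, -⟩ := hx7 Γ c.hΓ c.X.S c.X.pants
  have z1 := hx6 Γ c.hΓ c.X.S c.X.pants
  -- hexagons at a leaf
  have hfan : ∀ p x y : Bd × Bd, c.X.S.Hex p x y → ∀ τ : Tri, c.X.S.IsHex τ → τ.1 = p →
      ∃ γ ∈ Γ, τ = gat γ (p, x, y) ∨ τ = gat γ (p, y, ga (gen Γ p) x) := by
    intro p x y hpxy τ hτ hp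
    obtain ⟨p', u, v⟩ := τ
    have hpp : p' = p := hp
    subst hpp
    have hτ' : c.X.S.Hex p' u v := hτ
    have hpL := hτ'.1.1
    have hgen := HX1_isGen c.hΓ g1 c.X.S hpL
    obtain ⟨n, hn⟩ := y1 _ _ _ _ _ hpxy hτ'
    have hfix := WR2_ga_zpow (gen Γ p') p' (HX1_ga_gen c.hΓ g1 c.X.S hpL) n
    refine ⟨gen Γ p' ^ n, WR2_zpow_mem hgen.1 n, ?_⟩
    rcases hn with ⟨h1, h2⟩ | ⟨h1, h2⟩
    · left
      change ((p', u, v) : Tri) = (ga (gen Γ p' ^ n) p', ga (gen Γ p' ^ n) x, ga (gen Γ p' ^ n) y)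
      rw [hfix, h1, h2]
    · right
      change ((p', u, v) : Tri) = (ga (gen Γ p' ^ n) p', ga (gen Γ p' ^ n) y,
        ga (gen Γ p' ^ n) (ga (gen Γ p') x))
      rw [hfix, h1, h2, ← WR2b_ga_mul (gen Γ p' ^ n) (gen Γ p'), _root_.zpow_add_one]
  -- classes of first leaves are separated
  have hinj : ∀ x x' : J × Fin 4, ∀ δ ∈ Γ, B.t0 x' = gat δ (B.t0 x) → x' = x := by
    rintro ⟨j, a⟩ ⟨j', a'⟩ δ hδ h
    have hL : (B.t0 (j, a)).1 ∈ c.X.S.L := (hhex (j, a)).1.1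
    have h1 : (B.t0 (j', a')).1 = ga δ (B.t0 (j, a)).1 := congrArg Prod.fst h
    have hc : c.X.D.cls (B.t0 (j', a')).1 = c.X.D.cls (B.t0 (j, a)).1 := by
      rw [h1]; exact c.X.D.cls_ga δ hδ _ hL
    have hcl : ∀ (j : J) (a : Fin 4), c.X.D.cls (B.t0 (j, a)).1 = j := by
      intro j a
      rcases WR2_first c B j a with ⟨-, h⟩ | ⟨-, h⟩
      · rw [h, c.X.D.clsP]
      · rw [h, c.X.D.cls_sw _ (c.X.D.memP j), c.X.D.clsP]
    rw [hcl, hcl] at hc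
    subst hc
    have hns := WR2b_noswap h4 h5 g6 g7 Γ c.hΓ (c.X.D.P j') (c.X.S.closed _ (c.X.D.memP j')).1
    have hns' : ∀ γ ∈ Γ, ga γ (sw (c.X.D.P j')) ≠ c.X.D.P j' := by
      intro γ hγ hh
      refine hns γ hγ ?_
      have := congrArg sw hh
      exact this
    have hthird : ∀ p x y : Bd × Bd, c.X.S.Hex p x y → ∀ γ ∈ Γ,
        ((p, y, ga (gen Γ p) x) : Tri) ≠ gat γ (p, x, y) := by
      intro p x y hpxy γ hγ hh
      have e : y = ga γ x := congrArg (fun t : Tri => t.2.1) hh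
      exact (z1 x y p (x1 _ _ _ hpxy) γ hγ).1 e.symm
    have hthird' : ∀ p x y : Bd × Bd, c.X.S.Hex p x y → ∀ γ ∈ Γ,
        ((p, x, y) : Tri) ≠ gat γ (p, y, ga (gen Γ p) x) := by
      intro p x y hpxy γ hγ hh
      refine hthird p x y hpxy γ⁻¹ (Γ.inv_mem hγ) ?_
      rw [hh, ← WR2_gat_mul, inv_mul_cancel, WR2_gat_one]
    fin_cases a <;> fin_cases a'
    · rfl
    · exact absurd h (hthird _ _ _ (B.hexU j') δ hδ)
    · exact absurd (congrArg Prod.fst h).symm (hns δ hδ)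
    · exact absurd (congrArg Prod.fst h).symm (hns δ hδ)
    · exact absurd h (hthird' _ _ _ (B.hexU j') δ hδ)
    · rfl
    · exact absurd (congrArg Prod.fst h).symm (hns δ hδ)
    · exact absurd (congrArg Prod.fst h).symm (hns δ hδ)
    · exact absurd (congrArg Prod.fst h).symm (hns' δ hδ)
    · exact absurd (congrArg Prod.fst h).symm (hns' δ hδ)
    · rfl
    · exact absurd h (hthird _ _ _ (B.hexV j') δ hδ)
    · exact absurd (congrArg Prod.fst h).symm (hns' δ hδ)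
    · exact absurd (congrArg Prod.fst h).symm (hns' δ hδ)
    · exact absurd h (hthird' _ _ _ (B.hexV j') δ hδ)
    · rfl
  intro τ hτ
  -- existence
  have hex : ∃ x : J × Fin 4, ∃ γ ∈ Γ, τ = gat γ (B.t0 x) := by
    have hL : τ.1 ∈ c.X.S.L := hτ.1.1
    obtain ⟨γ, hγ, hh⟩ := c.X.D.cls_inj (c.X.D.P (c.X.D.cls τ.1)) (c.X.D.memP _) τ.1 hL
      (c.X.D.clsP _)
    have hτ2 : c.X.S.IsHex (gat γ⁻¹ τ) := x4 γ⁻¹ (Γ.inv_mem hγ) _ _ _ hτ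
    have hback : ∀ t : Tri, gat γ⁻¹ τ = t → τ = gat γ t := by
      intro t ht
      rw [← ht, ← WR2_gat_mul, mul_inv_cancel, WR2_gat_one]
    rcases hh with hh | hh
    · have h1 : (gat γ⁻¹ τ).1 = c.X.D.P (c.X.D.cls τ.1) := by
        change ga γ⁻¹ τ.1 = _
        rw [hh, WR2b_ga_inv_ga]
        rw [← hh]
      obtain ⟨δ, hδ, h2 | h2⟩ := hfan _ _ _ (B.hexU (c.X.D.cls τ.1)) _ hτ2 h1
      · refine ⟨(c.X.D.cls τ.1, 0), γ * δ, Γ.mul_mem hγ hδ, ?_⟩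
        rw [WR2_gat_mul]
        exact hback _ h2
      · refine ⟨(c.X.D.cls τ.1, 1), γ * δ, Γ.mul_mem hγ hδ, ?_⟩
        rw [WR2_gat_mul]
        exact hback _ h2
    · have h1 : (gat γ⁻¹ τ).1 = sw (c.X.D.P (c.X.D.cls τ.1)) := by
        change ga γ⁻¹ τ.1 = _
        rw [hh, WR2b_ga_inv_ga]
        rw [← hh]
      obtain ⟨δ, hδ, h2 | h2⟩ := hfan _ _ _ (B.hexV (c.X.D.cls τ.1)) _ hτ2 h1
      · refine ⟨(c.X.D.cls τ.1, 2), γ * δ, Γ.mul_mem hγ hδ, ?_⟩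
        rw [WR2_gat_mul]
        exact hback _ h2
      · refine ⟨(c.X.D.cls τ.1, 3), γ * δ, Γ.mul_mem hγ hδ, ?_⟩
        rw [WR2_gat_mul]
        exact hback _ h2
  obtain ⟨x, γ, hγ, hx⟩ := hex
  refine ⟨x, ⟨γ, hγ, hx⟩, ?_⟩
  rintro x' ⟨γ', hγ', hx'⟩
  refine hinj x x' (γ'⁻¹ * γ) (Γ.mul_mem (Γ.inv_mem hγ') hγ) ?_
  rw [WR2_gat_mul, ← hx, hx', ← WR2_gat_mul, inv_mul_cancel, WR2_gat_one]

end AdSBend
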