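import Pool.Agent.helper73.AD.GW1
import Pool.Agent.helper13.AG.HX1

/-!
Project ad, module WR2b: elementary properties of triples.
-/

open scoped MatrixGroups LinearAlgebra.Projectivization BigOperators
open Matrix UpperHalfPlane

namespace AdSBend

open LeafSystem

theorem WR2b_ga_mul (g h : SL(2, ℝ)) (p : Bd × Bd) : ga (g * h) p = ga g (ga h p) := by
  refine Prod.ext ?_ ?_
  · exact mul_smul g h p.1
  · exact mul_smul g h p.2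

theorem WR2b_ga_one (p : Bd × Bd) : ga 1 p = p :=
  Prod.ext (one_smul _ p.1) (one_smul _ p.2)

theorem WR2b_ga_peq {g h : SL(2, ℝ)} (H : PEq g h) (p : Bd × Bd) : ga g p = ga h p :=
  Prod.ext (HX1_peq_smul H p.1) (HX1_peq_smul H p.2)

theorem WR2b_ga_inv_ga (g : SL(2, ℝ)) (p : Bd × Bd) : ga g⁻¹ (ga g p) = p := by
  rw [← WR2b_ga_mul, inv_mul_cancel, WR2b_ga_one]

theorem WR2b_ga_ga_inv (g : SL(2, ℝ)) (p : Bd × Bd) : ga g (ga g⁻¹ p) = p := by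
  rw [← WR2b_ga_mul, mul_inv_cancel, WR2b_ga_one]

/-- no element of the group exchanges the endpoints of a leaf -/
theorem WR2b_noswap (h4 : BD4_stmt) (h5 : BD5_stmt) (h6 : GM6_stmt) (h7 : GM7_stmt)
    (Γ : Subgroup SL(2, ℝ)) (hΓ : IsClosedSurfaceGroup Γ) (p : Bd × Bd) (hp : p.1 ≠ p.2)
    (γ : SL(2, ℝ)) (hγ : γ ∈ Γ) : ga γ p ≠ sw p := by
  intro h
  have e1 : γ • p.1 = p.2 := congrArg Prod.fst h
  have e2 : γ • p.2 = p.1 := congrArg Prod.snd h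
  have hn : ¬ PEq γ 1 := by
    intro h1
    have := HX1_peq_smul h1 p.1
    rw [one_smul, e1] at this
    exact hp this.symm
  obtain ⟨q, hq, -⟩ := h6 Γ hΓ γ hγ hn
  obtain ⟨q12, f1, f2, hc⟩ := hq
  have s1 : (γ * γ) • p.1 = p.1 := by rw [mul_smul, e1, e2]
  have s2 : (γ * γ) • p.2 = p.2 := by rw [mul_smul, e2, e1]
  have s3 : (γ * γ) • q.1 = q.1 := by rw [mul_smul, f1, f1]
  have n1 : p.2 ≠ q.1 := by
    intro h
    rw [← h, e2] at f1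
    exact hp f1
  have n2 : q.1 ≠ p.1 := by
    intro h
    rw [h, e1] at f1
    exact hp f1.symm
  have hsq := h5 (γ * γ) p.1 p.2 q.1 hp n1 n2 s1 s2 s3
  obtain ⟨a1, a2, a3, a4, a5, a6⟩ := h4
  obtain ⟨c, hcc⟩ := a6 q.2 q.1 (Ne.symm q12)
  have k1 := hc c hcc
  obtain ⟨b1, b2, b3, b4⟩ := h7 γ q c (γ • c) ⟨q12, f1, f2, hc⟩ hcc (by
    obtain ⟨-, -, -, b4⟩ := h7 γ q c c ⟨q12, f1, f2, hc⟩ hcc hcc
    exact b4)
  have k2 := b3 k1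
  have k3 : γ • γ • c = c := by
    have := HX1_peq_smul hsq c
    rw [mul_smul, one_smul] at this
    exact this
  rw [k3] at k2
  exact a3 _ _ _ k1 k2

theorem WR2b_gat_stab (h4 : BD4_stmt) (h5 : BD5_stmt) (Γ : Subgroup SL(2, ℝ))
    (S : LeafSystem Γ) (γ : SL(2, ℝ)) (τ : Tri) (hτ : S.IsHex τ) (h : gat γ τ = τ) :
    PEq γ 1 := by
  obtain ⟨-, -, -, hc, -⟩ := hτ
  obtain ⟨a1, -⟩ := h4
  obtain ⟨n1, n2, n3⟩ := a1 _ _ _ hc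
  have e1 : γ • τ.1.1 = τ.1.1 := congrArg (fun t : Tri => t.1.1) h
  have e2 : γ • τ.2.1.1 = τ.2.1.1 := congrArg (fun t : Tri => t.2.1.1) h
  have e3 : γ • τ.2.2.1 = τ.2.2.1 := congrArg (fun t : Tri => t.2.2.1) h
  exact h5 γ _ _ _ n1 n2 n3 e1 e2 e3

theorem WR2b (h4 : BD4_stmt) (h5 : BD5_stmt) (g1 : GM1_stmt) (g2 : GM2_stmt) (g6 : GM6_stmt)
    (g7 : GM7_stmt) (pn2 : PN2_stmt) (hx1 : HX1_stmt) : WR2b_stmt := by
  intro Γ hΓ S hS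
  obtain ⟨x1, x2, x3, x4, x5, x6, x7⟩ := hx1 Γ hΓ S
  obtain ⟨p1, p2, p3⟩ := pn2 Γ hΓ S
  obtain ⟨-, m2, m3⟩ := g2 Γ hΓ
  have gfix : ∀ p ∈ S.L, ga (gen Γ p) p = p := fun p hp => HX1_ga_gen hΓ g1 S hp
  have gga : ∀ γ ∈ Γ, ∀ p ∈ S.L, ∀ q, ga (gen Γ (ga γ p)) (ga γ q) = ga γ (ga (gen Γ p) q) := by
    intro γ hγ p hp q
    rw [WR2b_ga_peq (m2 p (S.closed p hp) γ hγ) (ga γ q), WR2b_ga_mul, WR2b_ga_mul,
      WR2b_ga_inv_ga]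
  refine ⟨?_, ?_, ?_, ?_, ?_, ?_⟩
  · intro γ hγ τ hτ
    exact x4 γ hγ _ _ _ hτ
  · intro γ _ τ hτ h
    exact WR2b_gat_stab h4 h5 Γ S γ τ hτ h
  · rintro ⟨p, q, r⟩ hτ
    have hτ' : S.Hex p q r := hτ
    have hp : p ∈ S.L := hτ'.1.1
    have hq : q ∈ S.L := hτ'.1.2.1
    have hr : r ∈ S.L := hτ'.2.2.1.1
    refine ⟨x1 _ _ _ (x1 _ _ _ hτ'), x1 _ _ _ (x2 _ _ _ hτ'), x2 _ _ _ hτ', ?_, ?_, gfix p hp⟩
    · have hrel : PEq (gen Γ r * gen Γ p * gen Γ q) 1 := by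
        have h1 := HX1_peq_conj_one (gen Γ r) hτ'.2.2.2.2
        have : gen Γ r * (gen Γ p * gen Γ q * gen Γ r) * (gen Γ r)⁻¹ =
            gen Γ r * gen Γ p * gen Γ q := by group
        rwa [this] at h1
      have : ga (gen Γ r) (ga (gen Γ p) q) = q := by
        conv_lhs => rw [← gfix q hq]
        rw [← WR2b_ga_mul, ← WR2b_ga_mul, WR2b_ga_peq hrel, WR2b_ga_one]
      change ((p, ga (gen Γ r) (ga (gen Γ p) q), r) : Tri) = (p, q, r)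
      rw [this]
    · change ((p, ga (gen Γ p) q, ga (gen Γ p) r) : Tri) =
        (ga (gen Γ p) p, ga (gen Γ p) q, ga (gen Γ p) r)
      rw [gfix p hp]
  · rintro γ hγ ⟨p, q, r⟩ hτ
    have hτ' : S.Hex p q r := hτ
    have hp : p ∈ S.L := hτ'.1.1
    refine ⟨rfl, ?_, ?_⟩
    · change ((ga γ r, ga (gen Γ (ga γ p)) (ga γ q), ga γ p) : Tri) =
        (ga γ r, ga γ (ga (gen Γ p) q), ga γ p)
      rw [gga γ hγ p hp]
    · change ((ga γ p, ga γ r, ga (gen Γ (ga γ p)) (ga γ q)) : Tri) =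
        (ga γ p, ga γ r, ga γ (ga (gen Γ p) q))
      rw [gga γ hγ p hp]
  · rintro ⟨p, q, r⟩ hτ
    have hτ' : S.Hex p q r := hτ
    exact ⟨hτ'.1.1, hτ'.1.2.1, hτ'.2.2.1.1, hτ'.1, p1 _ _ hτ'.2.2.1, hτ'.2.1, ⟨r, Or.inl hτ'⟩,
      ⟨q, Or.inr (x1 _ _ _ (x1 _ _ _ hτ'))⟩⟩
  · intro p hp γ hγ
    exact WR2b_noswap h4 h5 g6 g7 Γ hΓ p (S.closed p hp).1 γ hγ

end AdSBend
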