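import Pool.Agent.helper94.AW.WR2

/-!
Project ad, module WR3: sums over the reference triples of invariant functions.
-/

open scoped MatrixGroups LinearAlgebra.Projectivization BigOperators
open Matrix UpperHalfPlane

namespace AdSBend

open LeafSystem

theorem WR3_gen (r2 : WR2_stmt) (Γ : Subgroup SL(2, ℝ)) (J K : Type) [Fintype J]
    [DecidableEq J] (c : WCtx Γ J K) (B : c.Base) (F : Tri → ℝ)
    (hF : ∀ γ ∈ Γ, ∀ τ, c.X.S.IsHex τ → F (gat γ τ) = F τ) (T : Tri → Tri)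
    (hT : ∀ τ, c.X.S.IsHex τ → c.X.S.IsHex (T τ))
    (hTg : ∀ γ ∈ Γ, ∀ τ, c.X.S.IsHex τ → T (gat γ τ) = gat γ (T τ))
    (hg : ∀ γ ∈ Γ, ∀ τ, c.X.S.IsHex τ → c.X.S.IsHex (gat γ τ))
    (hTi : ∀ τ τ', c.X.S.IsHex τ → c.X.S.IsHex τ' → T τ = T τ' → τ = τ') :
    ∑ x, F (T (B.t0 x)) = ∑ x, F (B.t0 x) := by
  classical
  obtain ⟨h1, h2⟩ := r2 Γ J K c B
  have hex : ∀ x : J × Fin 4, ∃ y : J × Fin 4, ∃ γ ∈ Γ, T (B.t0 x) = gat γ (B.t0 y) :=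
    fun x => (h2 _ (hT _ (h1 x))).exists
  choose π γ hγ hπ using hex
  have hinj : Function.Injective π := by
    intro x x' hxx
    have e1 : T (B.t0 x) = gat (γ x * (γ x')⁻¹) (T (B.t0 x')) := by
      rw [hπ x, hπ x', hxx, ← WR2_gat_mul, inv_mul_cancel_right]
    have hm : γ x * (γ x')⁻¹ ∈ Γ := Γ.mul_mem (hγ x) (Γ.inv_mem (hγ x'))
    rw [← hTg _ hm _ (h1 x')] at e1
    have e2 := hTi _ _ (h1 x) (hg _ hm _ (h1 x')) e1
    obtain ⟨w, -, hw⟩ := h2 (B.t0 x) (h1 x)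
    have a1 := hw x ⟨1, Γ.one_mem, (WR2_gat_one _).symm⟩
    have a2 := hw x' ⟨_, hm, e2⟩
    rw [a1, a2]
  have hbij : Function.Bijective π := Finite.injective_iff_bijective.1 hinj
  calc ∑ x, F (T (B.t0 x)) = ∑ x, F (B.t0 (π x)) := by
        refine Finset.sum_congr rfl fun x _ => ?_
        rw [hπ x, hF _ (hγ x) _ (h1 _)]
    _ = ∑ x, F (B.t0 x) := hbij.sum_comp (fun y => F (B.t0 y))

theorem WR3 (r2 : WR2_stmt) (r2b : WR2b_stmt) : WR3_stmt := by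
  intro Γ J K _ _ c B F hF
  obtain ⟨b1, b2, b3, b4, b5, b6⟩ := r2b Γ c.hΓ c.X.S c.X.pants
  constructor
  · refine WR3_gen r2 Γ J K c B F hF rotT (fun τ hτ => (b3 τ hτ).1)
      (fun γ hγ τ hτ => (b4 γ hγ τ hτ).1) b1 ?_
    intro τ τ' _ _ h
    have : rotT (rotT (rotT τ)) = rotT (rotT (rotT τ')) := by rw [h]
    exact this
  · refine WR3_gen r2 Γ J K c B F hF (mir Γ) (fun τ hτ => (b3 τ hτ).2.1)
      (fun γ hγ τ hτ => (b4 γ hγ τ hτ).2.1) b1 ?_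
    intro τ τ' h1 h2 h
    have e1 := (b3 τ h1).2.2.2.1
    have e2 := (b3 τ' h2).2.2.2.1
    rw [← e1, ← e2, h]

end AdSBend
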