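import Pool.Agent.helper94.AW.WR2

/-!
Project ad, module WR4: unfolding of the sum over pairs of a reference triple and a translate
of the closed geodesic.
-/

open scoped MatrixGroups LinearAlgebra.Projectivization BigOperators
open Matrix UpperHalfPlane

namespace AdSBend

open LeafSystem

/-- two finite sums related by a one to one correspondence -/
theorem WR4_sum {α β : Type*} (A : Finset α) (B : Finset β) (f : α → ℝ) (g : β → ℝ)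
    (M : α → β → Prop) (h1 : ∀ a ∈ A, ∃! b, b ∈ B ∧ M a b) (h2 : ∀ b ∈ B, ∃! a, a ∈ A ∧ M a b)
    (h3 : ∀ a ∈ A, ∀ b ∈ B, M a b → f a = g b) : ∑ a ∈ A, f a = ∑ b ∈ B, g b := by
  classical
  have e1 : ∀ a ∈ A, f a = ∑ b ∈ B, if M a b then g b else 0 := by
    intro a ha
    obtain ⟨b, ⟨hb, hab⟩, hu⟩ := h1 a ha
    rw [Finset.sum_eq_single b]
    · rw [if_pos hab]; exact h3 a ha b hb hab
    · intro b' hb' hne
      rw [if_neg]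
      intro h
      exact hne (hu b' ⟨hb', h⟩)
    · intro h; exact absurd hb h
  have e2 : ∀ b ∈ B, g b = ∑ a ∈ A, if M a b then g b else 0 := by
    intro b hb
    obtain ⟨a, ⟨ha, hab⟩, hu⟩ := h2 b hb
    rw [Finset.sum_eq_single a]
    · rw [if_pos hab]
    · intro a' ha' hne
      rw [if_neg]
      intro h
      exact hne (hu a' ⟨ha', h⟩)
    · intro h; exact absurd ha h
  rw [Finset.sum_congr rfl e1, Finset.sum_congr rfl e2, Finset.sum_comm]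

section

variable {Γ : Subgroup SL(2, ℝ)} {J K : Type}

/-- the plaques along `l` are distinct -/
theorem WR4_plaque (h12 : BD12_stmt) (c : WCtx Γ J K) (i j : ℤ) (τ : Tri)
    (hi : c.InPl i τ) (hj : c.InPl j τ) : ¬ i < j := by
  intro hij
  obtain ⟨b1, b2, b3, b4, b5, b6, b7, -⟩ := h12
  have hin : Inside (c.W.A i) (c.W.A j) := c.W.mono i j hij
  rcases hi.2 with h1 | h1 <;> rcases hj.2 with h2 | h2
  · rw [← h1, ← h2] at hin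
    exact b6 _ _ ⟨hin, hin⟩
  · rw [h1] at h2
    exact b7 _ _ ⟨hin, (b1 _ _).1 h2.2.2.1⟩
  · rw [h2] at h1
    exact b7 _ _ ⟨hin, h1.2.2.1⟩
  · exact h1.2.2.2 _ h2.1 hin h2.2.2.1

theorem WR4_perA (c : WCtx Γ J K) (m : ℤ) (i : ℤ) :
    c.W.A (i + m * (c.w.n + 1)) = ga (gen Γ c.l ^ m) (c.W.A i) := by
  have hper : ∀ i, c.W.A (i + (c.w.n + 1)) = ga (gen Γ c.l) (c.W.A i) := by
    intro i
    have := c.W.perA i
    rw [← add_assoc]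
    exact this
  induction m using Int.induction_on with
  | zero => rw [zero_mul, add_zero, zpow_zero, WR2b_ga_one]
  | succ m ih =>
    have e : i + ((m : ℤ) + 1) * (c.w.n + 1) = (i + (m : ℤ) * (c.w.n + 1)) + (c.w.n + 1) := by
      ring
    rw [e, hper, ih, ← WR2b_ga_mul, _root_.zpow_add_one, ← _root_.zpow_one_add, add_comm,
      _root_.zpow_add_one]
  | pred m ih =>
    have e : i + (-(m : ℤ)) * (c.w.n + 1) =
        (i + (-(m : ℤ) - 1) * (c.w.n + 1)) + (c.w.n + 1) := by ring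
    rw [e, hper] at ih
    have h2 := congrArg (ga (gen Γ c.l)⁻¹) ih
    rw [WR2b_ga_inv_ga, ← WR2b_ga_mul] at h2
    rw [h2]
    congr 1
    rw [_root_.zpow_sub_one, ← _root_.zpow_neg_one, ← _root_.zpow_add, ← _root_.zpow_add,
      add_comm]

theorem WR4_shift (r2b : WR2b_stmt) (pn2 : PN2_stmt) (g1 : GM1_stmt) (c : WCtx Γ J K)
    (m : ℤ) (i : ℤ) (τ : Tri) (h : c.InPl i τ) :
    c.InPl (i + m * (c.w.n + 1)) (gat (gen Γ c.l ^ m) τ) := by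
  obtain ⟨b1, -⟩ := r2b Γ c.hΓ c.X.S c.X.pants
  obtain ⟨-, p2, -⟩ := pn2 Γ c.hΓ c.X.S
  have hl := g1 Γ c.hΓ c.l (c.X.S'.closed _ (c.X.D'.memP c.k))
  have hm : gen Γ c.l ^ m ∈ Γ := WR2_zpow_mem hl.1 m
  refine ⟨b1 _ hm _ h.1, ?_⟩
  rw [WR4_perA]
  rcases h.2 with h1 | h1
  · left
    change ga (gen Γ c.l ^ m) τ.1 = _
    rw [h1]
  · right
    exact p2 _ hm _ _ h1

/-- uniqueness of the position of a triple in the plaques `0, ..., n` -/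
theorem WR4_uniq (h12 : BD12_stmt) (r2b : WR2b_stmt) (pn2 : PN2_stmt) (g1 : GM1_stmt)
    (c : WCtx Γ J K) (i j : Fin (c.w.n + 1)) (σ τ τ' : Tri) (b : Bd × Bd)
    (γ γ' : SL(2, ℝ)) (hγ : γ ∈ Γ) (hγ' : γ' ∈ Γ) (hi : c.InPl (i.val : ℤ) τ)
    (hj : c.InPl (j.val : ℤ) τ') (e : τ = gat γ σ) (e' : τ' = gat γ' σ) (f : c.l = ga γ b)
    (f' : c.l = ga γ' b) : i = j ∧ τ = τ' := by
  have hl := g1 Γ c.hΓ c.l (c.X.S'.closed _ (c.X.D'.memP c.k))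
  have hδ : γ' * γ⁻¹ ∈ Γ := Γ.mul_mem hγ' (Γ.inv_mem hγ)
  have h1 : ga (γ' * γ⁻¹) c.l = c.l := by
    have : ga γ⁻¹ c.l = b := by rw [f, WR2b_ga_inv_ga]
    rw [WR2b_ga_mul, this, ← f']
  have h2 : τ' = gat (γ' * γ⁻¹) τ := by
    rw [e, e', ← WR2_gat_mul, inv_mul_cancel_right]
  obtain ⟨m, hm⟩ := hl.2.2 (γ' * γ⁻¹) hδ (congrArg Prod.fst h1) (congrArg Prod.snd h1)
  rw [WR2_gat_peq hm] at h2
  have h3 := WR4_shift r2b pn2 g1 c m i.val τ hi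
  rw [← h2] at h3
  have h4 : (j.val : ℤ) = (i.val : ℤ) + m * (c.w.n + 1) := by
    rcases lt_trichotomy (j.val : ℤ) ((i.val : ℤ) + m * (c.w.n + 1)) with h | h | h
    · exact absurd h (WR4_plaque h12 c _ _ τ' hj h3)
    · exact h
    · exact absurd h (WR4_plaque h12 c _ _ τ' h3 hj)
  have hi1 : (i.val : ℤ) < c.w.n + 1 := by exact_mod_cast i.2
  have hj1 : (j.val : ℤ) < c.w.n + 1 := by exact_mod_cast j.2
  have hi0 : (0 : ℤ) ≤ i.val := Int.natCast_nonneg _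
  have hj0 : (0 : ℤ) ≤ j.val := Int.natCast_nonneg _
  have hm0 : m = 0 := by
    by_contra hne
    rcases lt_or_gt_of_ne hne with h | h
    · nlinarith
    · nlinarith
  subst hm0
  rw [zpow_zero, WR2_gat_one] at h2
  refine ⟨?_, h2.symm⟩
  apply Fin.ext
  have : (j.val : ℤ) = i.val := by rw [h4]; ring
  exact_mod_cast this.symm

end

theorem WR4 (h12 : BD12_stmt) (g1 : GM1_stmt) (pn2 : PN2_stmt) (r2b : WR2b_stmt)
    (r2 : WR2_stmt) : WR4_stmt := by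
  classical
  intro Γ J K _ _ c B F hinv hfin hsupp
  obtain ⟨hhex, hrep⟩ := r2 Γ J K c B
  obtain ⟨b1, b2, -⟩ := r2b Γ c.hΓ c.X.S c.X.pants
  have hl := g1 Γ c.hΓ c.l (c.X.S'.closed _ (c.X.D'.memP c.k))
  have hlfix : ga (gen Γ c.l) c.l = c.l := Prod.ext hl.2.1.2.1 hl.2.1.2.2.1
  -- finite sets
  set Ax : J × Fin 4 → Finset (Bd × Bd) := fun x => (hfin (B.t0 x) (hhex x)).toFinset with hAx
  have hAxm : ∀ x b, b ∈ Ax x ↔ b ∈ orb Γ c.l ∧ F (B.t0 x) b ≠ 0 := by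
    intro x b
    rw [hAx]
    simp only [Set.Finite.mem_toFinset, Set.mem_setOf_eq]
  -- the relation determines the reference triple
  have hto : ∀ i : ℤ, ∀ τ, c.InPl i τ → F τ c.l ≠ 0 → ∃ x, ∃ b ∈ Ax x, ∃ γ ∈ Γ,
      τ = gat γ (B.t0 x) ∧ c.l = ga γ b := by
    intro i τ hi hF
    obtain ⟨x, γ, hγ, hx⟩ := (hrep τ hi.1).exists
    refine ⟨x, ga γ⁻¹ c.l, (hAxm _ _).2 ⟨⟨γ⁻¹, Γ.inv_mem hγ, rfl⟩, ?_⟩, γ, hγ, hx,
      (WR2b_ga_ga_inv _ _).symm⟩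
    rw [← hinv γ hγ _ _ (hhex x) ⟨γ⁻¹, Γ.inv_mem hγ, rfl⟩, ← hx, WR2b_ga_ga_inv]
    exact hF
  have hfinB : ∀ i : Fin (c.w.n + 1), {τ : Tri | c.InPl (i.val : ℤ) τ ∧ F τ c.l ≠ 0}.Finite := by
    intro i
    have hsub : {τ : Tri | c.InPl (i.val : ℤ) τ ∧ F τ c.l ≠ 0} ⊆
        ⋃ x : J × Fin 4, ⋃ b ∈ (Ax x : Set (Bd × Bd)), {τ : Tri | c.InPl (i.val : ℤ) τ ∧
          ∃ γ ∈ Γ, τ = gat γ (B.t0 x) ∧ c.l = ga γ b} := by
      rintro τ ⟨h1, h2⟩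
      obtain ⟨x, b, hb, γ, hγ, e1, e2⟩ := hto _ τ h1 h2
      simp only [Set.mem_iUnion]
      exact ⟨x, b, hb, h1, γ, hγ, e1, e2⟩
    refine Set.Finite.subset ?_ hsub
    refine Set.finite_iUnion fun x => ?_
    refine Set.Finite.biUnion (Ax x).finite_toSet fun b _ => ?_
    refine Set.Subsingleton.finite ?_
    rintro τ ⟨h1, γ, hγ, e1, f1⟩ τ' ⟨h2, γ', hγ', e2, f2⟩
    exact (WR4_uniq h12 r2b pn2 g1 c i i _ τ τ' b γ γ' hγ hγ' h1 h2 e1 e2 f1 f2).2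
  set Bx : Fin (c.w.n + 1) → Finset Tri := fun i => (hfinB i).toFinset with hBx
  have hBxm : ∀ i τ, τ ∈ Bx i ↔ c.InPl (i.val : ℤ) τ ∧ F τ c.l ≠ 0 := by
    intro i τ
    rw [hBx]
    simp only [Set.Finite.mem_toFinset, Set.mem_setOf_eq]
  have hL : ∀ x, ∑ᶠ b ∈ orb Γ c.l, F (B.t0 x) b = ∑ b ∈ Ax x, F (B.t0 x) b := by
    intro x
    refine finsum_mem_eq_sum_of_inter_support_eq _ ?_
    ext b
    simp only [Set.mem_inter_iff, Function.mem_support, Finset.mem_coe, hAxm]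
    tauto
  have hR : ∀ i : Fin (c.w.n + 1), ∑ᶠ τ ∈ {τ : Tri | c.InPl (i.val : ℤ) τ}, F τ c.l =
      ∑ τ ∈ Bx i, F τ c.l := by
    intro i
    refine finsum_mem_eq_sum_of_inter_support_eq _ ?_
    ext b
    simp only [Set.mem_inter_iff, Function.mem_support, Finset.mem_coe, hBxm,
      Set.mem_setOf_eq]
    tauto
  rw [Finset.sum_congr rfl fun x _ => hL x, Finset.sum_congr rfl fun i _ => hR i,
    Finset.sum_sigma', Finset.sum_sigma']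
  refine WR4_sum _ _ _ _ (fun a t => ∃ γ ∈ Γ, t.2 = gat γ (B.t0 a.1) ∧ c.l = ga γ a.2)
    ?_ ?_ ?_
  · rintro ⟨x, b⟩ hxb
    rw [Finset.mem_sigma] at hxb
    have hb := (hAxm x b).1 hxb.2
    obtain ⟨⟨γ₀, hγ₀, hb0⟩, hFb⟩ := hb
    change F (B.t0 x) b ≠ 0 at hFb
    change b = ga γ₀ c.l at hb0
    have hlb : ga γ₀⁻¹ b = c.l := by rw [hb0, WR2b_ga_inv_ga]
    have hbo : b ∈ orb Γ c.l := ⟨γ₀, hγ₀, hb0⟩
    have hF1 : F (gat γ₀⁻¹ (B.t0 x)) c.l ≠ 0 := by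
      rw [← hlb, hinv _ (Γ.inv_mem hγ₀) _ _ (hhex x) hbo]
      exact hFb
    have hx1 : c.X.S.IsHex (gat γ₀⁻¹ (B.t0 x)) := b1 _ (Γ.inv_mem hγ₀) _ (hhex x)
    have hlo : c.l ∈ orb Γ c.l := ⟨1, Γ.one_mem, (WR2b_ga_one _).symm⟩
    obtain ⟨A', hA', hcop, hbeh, hbeh'⟩ := hsupp _ _ hx1 hlo hF1
    obtain ⟨i, hi⟩ := c.W.all A' hA' hbeh hbeh'
    have hin : c.InPl i (gat γ₀⁻¹ (B.t0 x)) := by
      refine ⟨hx1, ?_⟩
      rw [← hi]
      rcases hcop with h | h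
      · exact Or.inl h.symm
      · exact Or.inr h
    have hnpos : (0 : ℤ) < (c.w.n : ℤ) + 1 := by positivity
    have hsh := WR4_shift r2b pn2 g1 c (-(i / ((c.w.n : ℤ) + 1))) i _ hin
    have hemod : i + -(i / ((c.w.n : ℤ) + 1)) * ((c.w.n : ℤ) + 1) = i % ((c.w.n : ℤ) + 1) := by
      rw [Int.emod_def]; ring
    rw [hemod] at hsh
    have hr0 : 0 ≤ i % ((c.w.n : ℤ) + 1) := Int.emod_nonneg _ hnpos.ne'
    have hr1 : i % ((c.w.n : ℤ) + 1) < (c.w.n : ℤ) + 1 := Int.emod_lt_of_pos _ hnpos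
    obtain ⟨r, hr⟩ := Int.eq_ofNat_of_zero_le hr0
    rw [hr] at hsh hr1
    have hrlt : r < c.w.n + 1 := by exact_mod_cast hr1
    set g := gen Γ c.l ^ (-(i / ((c.w.n : ℤ) + 1))) with hg
    have hgm : g ∈ Γ := WR2_zpow_mem hl.1 _
    have hgl : ga g c.l = c.l := WR2_ga_zpow _ _ hlfix _
    have hFg : F (gat g (gat γ₀⁻¹ (B.t0 x))) c.l ≠ 0 := by
      have := hinv g hgm _ _ hx1 hlo
      rw [hgl] at this
      rw [this]
      exact hF1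
    refine ⟨⟨⟨r, hrlt⟩, gat g (gat γ₀⁻¹ (B.t0 x))⟩, ⟨?_, g * γ₀⁻¹,
      Γ.mul_mem hgm (Γ.inv_mem hγ₀), ?_, ?_⟩, ?_⟩
    · rw [Finset.mem_sigma]
      exact ⟨Finset.mem_univ _, (hBxm _ _).2 ⟨hsh, hFg⟩⟩
    · rw [WR2_gat_mul]
    · rw [WR2b_ga_mul]
      change c.l = ga g (ga γ₀⁻¹ b)
      rw [hlb, hgl]
    · rintro ⟨j, τ'⟩ ⟨hj, γ', hγ', e', f'⟩
      rw [Finset.mem_sigma] at hj
      have hj2 := (hBxm _ _).1 hj.2
      have hu := WR4_uniq h12 r2b pn2 g1 c j ⟨r, hrlt⟩ (B.t0 x) τ'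
        (gat g (gat γ₀⁻¹ (B.t0 x))) b γ' (g * γ₀⁻¹) hγ' (Γ.mul_mem hgm (Γ.inv_mem hγ₀))
        hj2.1 hsh e' (WR2_gat_mul _ _ _).symm f' (by rw [WR2b_ga_mul, hlb, hgl])
      obtain ⟨u1, u2⟩ := hu
      subst u1
      rw [u2]
  · rintro ⟨i, τ⟩ hiτ
    rw [Finset.mem_sigma] at hiτ
    obtain ⟨h1, h2⟩ := (hBxm _ _).1 hiτ.2
    obtain ⟨x, b, hb, γ, hγ, e1, e2⟩ := hto _ τ h1 h2
    refine ⟨⟨x, b⟩, ⟨?_, γ, hγ, e1, e2⟩, ?_⟩
    · rw [Finset.mem_sigma]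
      exact ⟨Finset.mem_univ _, hb⟩
    · rintro ⟨x', b'⟩ ⟨hx', γ', hγ', e1', e2'⟩
      change τ = gat γ' (B.t0 x') at e1'
      change c.l = ga γ' b' at e2'
      have hxx : x' = x := by
        obtain ⟨w, -, hw⟩ := hrep τ h1.1
        rw [hw x' ⟨γ', hγ', e1'⟩, hw x ⟨γ, hγ, e1⟩]
      subst hxx
      have hst : gat (γ'⁻¹ * γ) (B.t0 x') = B.t0 x' := by
        rw [WR2_gat_mul, ← e1, e1', ← WR2_gat_mul, inv_mul_cancel, WR2_gat_one]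
      have hp := b2 _ (Γ.mul_mem (Γ.inv_mem hγ') hγ) _ (hhex x') hst
      have hbb : b' = b := by
        have h3 : b' = ga γ'⁻¹ c.l := by rw [e2', WR2b_ga_inv_ga]
        rw [h3, e2, ← WR2b_ga_mul, WR2b_ga_peq hp, WR2b_ga_one]
      rw [hbb]
  · rintro ⟨x, b⟩ hxb ⟨i, τ⟩ hiτ ⟨γ, hγ, e1, e2⟩
    rw [Finset.mem_sigma] at hxb
    have hb := (hAxm x b).1 hxb.2
    change F (B.t0 x) b = F τ c.l
    change τ = gat γ (B.t0 x) at e1
    change c.l = ga γ b at e2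
    rw [e1, e2, hinv γ hγ _ _ (hhex x) hb.1]

end AdSBend
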