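import Pool.Agent.helper73.AD.GW1
import Pool.Agent.helper73.AD.GWL

/-!
Project ad, module WV3a: existence and uniqueness of the velocity of a moving orthonormal frame.
-/

open scoped MatrixGroups LinearAlgebra.Projectivization BigOperators
open Matrix UpperHalfPlane

namespace AdSBend

/-- traceless matrices: the anticommutator is the trace of the product -/
theorem WV3a_anti (X Y : M2) (hX : X.trace = 0) (hY : Y.trace = 0) :
    X * Y + Y * X = (X * Y).trace • (1 : M2) := by
  rw [Matrix.trace_fin_two] at hX hY
  have hX1 : X 1 1 = -X 0 0 := by linarith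
  have hY1 : Y 1 1 = -Y 0 0 := by linarith
  ext i j
  rw [Matrix.trace_fin_two]
  fin_cases i <;> fin_cases j <;>
    simp [Matrix.mul_apply, Fin.sum_univ_two, hX1, hY1] <;> ring

theorem WV3a_smul_one_mul (t : ℝ) (X : M2) : (t • (1 : M2)) * X = t • X := by
  rw [Matrix.smul_mul, Matrix.one_mul]

theorem WV3a_comm (d a : M2) (hd : d.trace = 0) (ha : a.trace = 0) (haa : a * a = 1)
    (h : d * a = a * d) : d = ((d * a).trace / 2) • a := by
  have h1 := WV3a_anti d a hd ha
  have h2 : (2 : ℝ) • (d * a) = (d * a).trace • (1 : M2) := by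
    rw [← h1, ← h, two_smul]
  have h3 : (2 : ℝ) • d = (d * a).trace • a := by
    have := congrArg (fun M : M2 => M * a) h2
    simp only [Matrix.smul_mul, Matrix.mul_assoc, haa, Matrix.mul_one, Matrix.one_mul] at this
    exact this
  calc d = (1 / 2 : ℝ) • ((2 : ℝ) • d) := by rw [smul_smul]; norm_num
    _ = _ := by rw [h3, smul_smul]; congr 1; ring

theorem WV3a_uniq (a s a' s' nu nu' : M2) (ha : a.trace = 0) (hs : s.trace = 0)
    (haa : a * a = 1) (hss : s * s = 1) (has : a * s = -(s * a)) (h : IsVel a s a' s' nu)
    (h' : IsVel a s a' s' nu') : nu = nu' := by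
  obtain ⟨t1, a1, s1⟩ := h
  obtain ⟨t2, a2, s2⟩ := h'
  have hd : (nu - nu').trace = 0 := by rw [Matrix.trace_sub, t1, t2]; ring
  have key : ∀ x : M2, (1 / 2 : ℝ) • (nu * x - x * nu) = (1 / 2 : ℝ) • (nu' * x - x * nu') →
      (nu - nu') * x = x * (nu - nu') := by
    intro x hx
    have h3 : nu * x - x * nu = nu' * x - x * nu' := by
      have := congrArg (fun M : M2 => (2 : ℝ) • M) hx
      simp only [smul_smul] at this
      norm_num at this
      exact this
    have h4 : (nu - nu') * x - x * (nu - nu') = (nu * x - x * nu) - (nu' * x - x * nu') := by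
      noncomm_ring
    rw [h3, sub_self] at h4
    exact sub_eq_zero.mp h4
  have ca := key a (a1.trans a2.symm)
  have cs := key s (s1.trans s2.symm)
  have e1 := WV3a_comm _ a hd ha haa ca
  have e2 := WV3a_comm _ s hd hs hss cs
  set d := nu - nu' with hdd
  have tsa : (s * a).trace = 0 := by
    have h1 : (a * s).trace = (s * a).trace := Matrix.trace_mul_comm a s
    rw [has, Matrix.trace_neg] at h1
    linarith
  have t0 : (d * a).trace = 0 := by
    have : (d * a).trace = (((d * s).trace / 2) • (s * a)).trace := by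
      conv_lhs => rw [e2]
      rw [Matrix.smul_mul]
    rw [this, Matrix.trace_smul, tsa, smul_zero]
  rw [t0] at e1
  have : d = 0 := by rw [e1]; simp
  exact sub_eq_zero.mp this

theorem WV3a_exists (a s a' s' : M2) (ha : a.trace = 0) (hs : s.trace = 0) (ha' : a'.trace = 0)
    (hs' : s'.trace = 0)
    (haa : a * a = 1) (hss : s * s = 1) (has : a * s = -(s * a))
    (da : a' * a + a * a' = 0) (ds : s' * s + s * s' = 0)
    (das : a' * s + a * s' = -(s' * a + s * a')) :
    ∃ nu, IsVel a s a' s' nu := by
  have ea : a' * a = -(a * a') := eq_neg_of_add_eq_zero_left da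
  have es : s' * s = -(s * s') := eq_neg_of_add_eq_zero_left ds
  have tas : (a * s).trace = 0 := by
    have h1 : (a * s).trace = (s * a).trace := Matrix.trace_mul_comm a s
    rw [has, Matrix.trace_neg] at h1 ⊢
    linarith
  have taa : (a' * a).trace = 0 := by
    have h1 : (a' * a).trace = (a * a').trace := Matrix.trace_mul_comm a' a
    rw [ea, Matrix.trace_neg] at h1 ⊢
    linarith
  have hsa : s * a = -(a * s) := by rw [has, neg_neg]
  -- the main identity
  have key : a * s' * a - s' = ((s' * (a * s)).trace) • (a * s) := by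
    have h1 := WV3a_anti s' (a * s) hs' tas
    have h2 := congrArg (fun M : M2 => (a * s) * M) h1
    simp only [Matrix.mul_smul, Matrix.mul_one] at h2
    rw [← h2]
    have e1 : a * s * (s' * (a * s)) = a * s' * a := by
      calc a * s * (s' * (a * s)) = a * (s * s') * (a * s) := by noncomm_ring
        _ = a * (-(s' * s)) * (a * s) := by rw [es]; simp
        _ = -(a * s') * (s * a) * s := by noncomm_ring
        _ = -(a * s') * (-(a * s)) * s := by rw [hsa]
        _ = (a * s' * a) * (s * s) := by noncomm_ring
        _ = a * s' * a := by rw [hss, Matrix.mul_one]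
    have e2 : a * s * (a * s * s') = -s' := by
      calc a * s * (a * s * s') = a * (s * a) * s * s' := by noncomm_ring
        _ = a * (-(a * s)) * s * s' := by rw [hsa]
        _ = -((a * a) * (s * s) * s') := by noncomm_ring
        _ = -s' := by rw [haa, hss]; simp
    rw [Matrix.mul_add, e1, e2]
    noncomm_ring
  refine ⟨a' * a - ((s' * (a * s)).trace / 2) • a, ?_, ?_, ?_⟩
  · rw [Matrix.trace_sub, Matrix.trace_smul, ha, taa]; simp
  · have h1 : (a' * a - ((s' * (a * s)).trace / 2) • a) * a -
        a * (a' * a - ((s' * (a * s)).trace / 2) • a) = a' * a * a - a * a' * a := by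
      rw [Matrix.sub_mul, Matrix.mul_sub, Matrix.smul_mul, Matrix.mul_smul]
      noncomm_ring
    have h2 : a * a' = -(a' * a) := by rw [ea, neg_neg]
    rw [h1, h2, Matrix.neg_mul, sub_neg_eq_add, Matrix.mul_assoc, haa, Matrix.mul_one,
      ← two_smul ℝ a', smul_smul]
    norm_num
  · set c := (s' * (a * s)).trace with hc
    have h1 : (a' * a - (c / 2) • a) * s - s * (a' * a - (c / 2) • a) =
        (a' * a * s - s * a' * a) - c • (a * s) := by
      rw [Matrix.sub_mul, Matrix.mul_sub, Matrix.smul_mul, Matrix.mul_smul, hsa, smul_neg]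
      have : c • (a * s) = (c / 2) • (a * s) + (c / 2) • (a * s) := by
        rw [← add_smul]; congr 1; ring
      rw [this]
      noncomm_ring
    have h2 : s * a' = -(a' * s + a * s' + s' * a) := by
      have h3 := das
      have : s * a' = -(a' * s + a * s') - s' * a := by
        rw [h3]; noncomm_ring
      rw [this]; noncomm_ring
    have h3 : a' * a * s - s * a' * a = a * s' * a + s' := by
      rw [h2]
      calc a' * a * s - -(a' * s + a * s' + s' * a) * a
          = a' * (a * s) + a' * (s * a) + a * s' * a + s' * (a * a) := by noncomm_ring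
        _ = a * s' * a + s' := by rw [hsa, haa]; noncomm_ring
    rw [h1, h3, ← key]
    have : a * s' * a + s' - (a * s' * a - s') = (2 : ℝ) • s' := by
      rw [two_smul]; noncomm_ring
    rw [this, smul_smul]
    norm_num

theorem WV3a : WV3a_stmt := by
  refine ⟨WV3a_uniq, ?_⟩
  intro a s a' s' h Ha Hs
  have c0 : HasD (fun _ : ℝ => (1 : M2)) 0 := HasD.const 1
  obtain ⟨ha, hs, haa, hss, has⟩ := h 0
  have z0 : HasDerivAt (fun _ : ℝ => (0 : ℝ)) 0 0 := hasDerivAt_const _ _
  have ta : a'.trace = 0 := by
    have h1 := Ha.trace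
    have h2 : (fun u => (a u).trace) = fun _ => (0 : ℝ) := by funext u; exact (h u).1
    rw [h2] at h1
    exact h1.unique z0
  have ts : s'.trace = 0 := by
    have h1 := Hs.trace
    have h2 : (fun u => (s u).trace) = fun _ => (0 : ℝ) := by funext u; exact (h u).2.1
    rw [h2] at h1
    exact h1.unique z0
  have da : a' * a 0 + a 0 * a' = 0 := by
    have h1 := Ha.mul Ha
    have h2 : (fun u => a u * a u) = fun _ => (1 : M2) := by funext u; exact (h u).2.2.1
    rw [h2] at h1
    exact h1.unique c0
  have ds : s' * s 0 + s 0 * s' = 0 := by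
    have h1 := Hs.mul Hs
    have h2 : (fun u => s u * s u) = fun _ => (1 : M2) := by funext u; exact (h u).2.2.2.1
    rw [h2] at h1
    exact h1.unique c0
  have das : a' * s 0 + a 0 * s' = -(s' * a 0 + s 0 * a') := by
    have h1 := Ha.mul Hs
    have h2 := (Hs.mul Ha).neg
    have h3 : (fun u => a u * s u) = fun u => -(s u * a u) := by
      funext u; exact (h u).2.2.2.2
    rw [h3] at h1
    exact h1.unique h2
  exact WV3a_exists (a 0) (s 0) a' s' ha hs ta ts haa hss has da ds das

end AdSBend
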